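import Pool.Agent.Q236.HB.AddFin

/-!
# Every point set has few halving lines after few additions

Definitions (in `Pool/Agent/W296/HL3.lean`, namespace `Pool.Agent.W296.HL`):

* `Line a b c = {p | a * p.1 + b * p.2 = c}`,
* `GeneralPosition P`: no three distinct points of `P` on a common line,
* `IsBisector P L`: `L` is a line through two distinct points of `P` with exactly
  `|P| / 2 - 1` points of `P` on each open side.
-/

set_option autoImplicit false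

namespace Pool.Agent.Results.MP_e17eac_co.FewAdditions

open Finset
open Pool.Agent.W296.HL (GeneralPosition IsBisector)

/-- Let `P` be a set of `n` points in general position, `n` even.
1. For every `d ≤ n` there is a set `Q ⊇ P` in general position with an even number of points, at
   most `n + d`, that has at most `48 n ^ (4/3) / (d + 1) ^ (1/3)` bisectors.
2. In particular, for every `0 < δ ≤ 1` there is a set `Q ⊇ P` in general position with an even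
   number of points, at most `(1 + δ) n`, that has at most `48 n / δ ^ (1/3)` bisectors. -/
theorem result : ∀ P : Finset (ℝ × ℝ), GeneralPosition P → Even #P →
    (∀ d : ℕ, d ≤ #P → ∃ Q : Finset (ℝ × ℝ), P ⊆ Q ∧ GeneralPosition Q ∧ Even #Q ∧ #Q ≤ #P + d ∧
      ({L | IsBisector Q L}.ncard : ℝ) ≤ 48 * ((#P : ℝ) ^ 4 / (d + 1)) ^ (1 / 3 : ℝ)) ∧
    (∀ δ : ℝ, 0 < δ → δ ≤ 1 → ∃ Q : Finset (ℝ × ℝ), P ⊆ Q ∧ GeneralPosition Q ∧ Even #Q ∧
      #Q ≤ (1 + δ) * #P ∧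
      ({L | IsBisector Q L}.ncard : ℝ) ≤ 48 * #P * (1 / δ) ^ (1 / 3 : ℝ)) := by
  intro P hP hE
  have root : ∀ C N X : ℝ, 0 < C → 0 ≤ N → 0 ≤ X → N ^ 3 ≤ C ^ 3 * X → N ≤ C * X ^ (1 / 3 : ℝ) := by
    intro C N X hC hN hX h
    have e : (C * X ^ (1 / 3 : ℝ)) ^ 3 = C ^ 3 * X := by
      rw [mul_pow, ← Real.rpow_natCast (X ^ (1 / 3 : ℝ)), ← Real.rpow_mul hX]
      norm_num
    rw [← e] at h
    exact le_of_pow_le_pow_left₀ (by norm_num) (by positivity) h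
  have part1 : ∀ d : ℕ, d ≤ #P → ∃ Q : Finset (ℝ × ℝ), P ⊆ Q ∧ GeneralPosition Q ∧ Even #Q ∧
      #Q ≤ #P + d ∧
      ({L | IsBisector Q L}.ncard : ℝ) ≤ 48 * ((#P : ℝ) ^ 4 / (d + 1)) ^ (1 / 3 : ℝ) := by
    intro d hd
    obtain ⟨Q, h1, h2, h3, h4, N, h5, h6, h7⟩ := Pool.Agent.Q236.HB.few_add hP hE hd
    refine ⟨Q, h1, h2, h3, h4, ?_⟩
    have hX : (0 : ℝ) ≤ (#P : ℝ) ^ 4 / (d + 1) := by positivity
    have hd1 : (0 : ℝ) < (d : ℝ) + 1 := by positivity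
    have e1 := root 46 N _ (by norm_num) h5 hX (by
      rw [mul_div_assoc', le_div_iff₀ hd1, mul_comm]
      exact h7)
    have e2 := root 2 (d : ℝ) _ (by norm_num) (Nat.cast_nonneg d) hX (by
      rw [mul_div_assoc', le_div_iff₀ hd1]
      have hdn : (d : ℝ) ≤ #P := by exact_mod_cast hd
      have hd0 : (0 : ℝ) ≤ d := Nat.cast_nonneg d
      have h8 : (d : ℝ) ^ 3 ≤ (#P : ℝ) ^ 3 := pow_le_pow_left₀ hd0 hdn 3
      rcases Nat.eq_zero_or_pos d with h0 | h0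
      · rw [h0]
        have : (0 : ℝ) ≤ (#P : ℝ) ^ 4 := by positivity
        norm_num
      · have h9 : (1 : ℝ) ≤ #P := by exact_mod_cast h0.trans_le hd
        calc (d : ℝ) ^ 3 * (d + 1) ≤ (#P : ℝ) ^ 3 * (#P + #P) := by gcongr
          _ ≤ 2 ^ 3 * (#P : ℝ) ^ 4 := by
            have : (0 : ℝ) ≤ (#P : ℝ) ^ 4 := by positivity
            nlinarith)
    linarith
  refine ⟨part1, ?_⟩
  intro δ h0 h1
  have hn : (0 : ℝ) ≤ #P := Nat.cast_nonneg _
  obtain ⟨Q, g1, g2, g3, g4, g5⟩ := part1 ⌊δ * #P⌋₊ (by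
    apply Nat.floor_le_of_le
    nlinarith)
  have hfl : (⌊δ * #P⌋₊ : ℝ) ≤ δ * #P := Nat.floor_le (by positivity)
  have hfl2 : δ * #P ≤ (⌊δ * #P⌋₊ : ℝ) + 1 := (Nat.lt_floor_add_one _).le
  refine ⟨Q, g1, g2, g3, ?_, ?_⟩
  · have : (#Q : ℝ) ≤ #P + ⌊δ * #P⌋₊ := by exact_mod_cast g4
    linarith
  · refine g5.trans ?_
    rcases eq_or_lt_of_le hn with hz | hz
    · rw [← hz]
      norm_num
    · have h8 : (#P : ℝ) ^ 4 / ((⌊δ * #P⌋₊ : ℝ) + 1) ≤ (#P : ℝ) ^ 3 * (1 / δ) := by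
        rw [div_le_iff₀ (by positivity)]
        calc (#P : ℝ) ^ 4 = (#P : ℝ) ^ 3 * (1 / δ) * (δ * #P) := by field_simp
          _ ≤ (#P : ℝ) ^ 3 * (1 / δ) * ((⌊δ * #P⌋₊ : ℝ) + 1) := by gcongr
      have h9 : ((#P : ℝ) ^ 3 * (1 / δ)) ^ (1 / 3 : ℝ) = #P * (1 / δ) ^ (1 / 3 : ℝ) := by
        rw [Real.mul_rpow (by positivity) (by positivity), ← Real.rpow_natCast,
          ← Real.rpow_mul hn]
        norm_num
      rw [mul_assoc, ← h9]
      gcongr

end Pool.Agent.Results.MP_e17eac_co.FewAdditions
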