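import Pool.Agent.Q236.HB.DelFin

/-!
# Every point set has few halving lines after few deletions

Definitions (in `Pool/Agent/W296/HL3.lean`, namespace `Pool.Agent.W296.HL`):

* `Line a b c = {p | a * p.1 + b * p.2 = c}`,
* `GeneralPosition P`: no three distinct points of `P` on a common line,
* `IsBisector P L`: `L` is a line through two distinct points of `P` with exactly
  `|P| / 2 - 1` points of `P` on each open side.
-/

set_option autoImplicit false

namespace Pool.Agent.Results.MP_e17eac_co.FewDeletions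

open Finset
open Pool.Agent.W296.HL (GeneralPosition IsBisector)

/-- Let `P` be a set of `n` points in general position, `n` even.
1. For every `d ≤ n` one can delete at most `d` points of `P` so that the remaining set has an even
   number of points and at most `280 n ^ (4/3) / (d + 1) ^ (1/3)` bisectors.
2. In particular, for every `0 < δ ≤ 1` one can delete at most `δ n` points of `P` so that the
   remaining set has an even number of points and at most `280 n / δ ^ (1/3)` bisectors. -/
theorem result : ∀ P : Finset (ℝ × ℝ), GeneralPosition P → Even #P →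
    (∀ d : ℕ, d ≤ #P → ∃ R ⊆ P, Even #R ∧ #P ≤ #R + d ∧
      ({L | IsBisector R L}.ncard : ℝ) ≤ 280 * ((#P : ℝ) ^ 4 / (d + 1)) ^ (1 / 3 : ℝ)) ∧
    (∀ δ : ℝ, 0 < δ → δ ≤ 1 → ∃ R ⊆ P, Even #R ∧ (1 - δ) * #P ≤ #R ∧
      ({L | IsBisector R L}.ncard : ℝ) ≤ 280 * #P * (1 / δ) ^ (1 / 3 : ℝ)) := by
  intro P hP hE
  have root : ∀ N X : ℝ, 0 ≤ N → 0 ≤ X → N ^ 3 ≤ 280 ^ 3 * X → N ≤ 280 * X ^ (1 / 3 : ℝ) := by
    intro N X hN hX h
    have e : (280 * X ^ (1 / 3 : ℝ)) ^ 3 = 280 ^ 3 * X := by
      rw [mul_pow, ← Real.rpow_natCast (X ^ (1 / 3 : ℝ)), ← Real.rpow_mul hX]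
      norm_num
    rw [← e] at h
    exact le_of_pow_le_pow_left₀ (by norm_num) (by positivity) h
  constructor
  · intro d hd
    obtain ⟨R, h1, h2, h3, h4⟩ := Pool.Agent.Q236.HB.few_del hP hd
    refine ⟨R, h1, h2 hE, h3, root _ _ (by positivity) (by positivity) ?_⟩
    rw [mul_div_assoc', le_div_iff₀ (by positivity), mul_comm]
    exact h4
  · intro δ h0 h1
    have hn : (0 : ℝ) ≤ #P := Nat.cast_nonneg _
    obtain ⟨R, g1, g2, g3, g4⟩ := Pool.Agent.Q236.HB.few_del hP (d := ⌊δ * #P⌋₊) (by
      apply Nat.floor_le_of_le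
      nlinarith)
    have hfl : (⌊δ * #P⌋₊ : ℝ) ≤ δ * #P := Nat.floor_le (by positivity)
    have hfl2 : δ * #P ≤ (⌊δ * #P⌋₊ : ℝ) + 1 := (Nat.lt_floor_add_one _).le
    refine ⟨R, g1, g2 hE, ?_, ?_⟩
    · have : (#P : ℝ) ≤ #R + ⌊δ * #P⌋₊ := by exact_mod_cast g3
      linarith
    · rcases eq_or_lt_of_le hn with hz | hz
      · rw [← hz] at g4 ⊢
        have h5 : ({L | IsBisector R L}.ncard : ℝ) ^ 3 ≤ 0 := by
          have h6 : (0 : ℝ) < (⌊δ * #P⌋₊ : ℝ) + 1 := by positivity
          by_contra hcon
          push Not at hcon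
          have := mul_pos h6 hcon
          rw [← hz] at this
          norm_num at g4 this
          linarith
        have h7 : ({L | IsBisector R L}.ncard : ℝ) = 0 := by
          have h8 : (0 : ℝ) ≤ ({L | IsBisector R L}.ncard : ℝ) := Nat.cast_nonneg _
          by_contra hne
          have : 0 < ({L | IsBisector R L}.ncard : ℝ) ^ 3 := by positivity
          linarith
        rw [h7]
        simp
      · have h5 : (δ * #P) * ({L | IsBisector R L}.ncard : ℝ) ^ 3 ≤ 280 ^ 3 * (#P : ℝ) ^ 4 :=
          le_trans (by gcongr) g4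
        have h6 : ({L | IsBisector R L}.ncard : ℝ) ^ 3 ≤ 280 ^ 3 * ((#P : ℝ) ^ 3 * (1 / δ)) := by
          have h7 : (δ * #P) * ({L | IsBisector R L}.ncard : ℝ) ^ 3 ≤
              (δ * #P) * (280 ^ 3 * ((#P : ℝ) ^ 3 * (1 / δ))) := by
            refine h5.trans (le_of_eq ?_)
            field_simp
          exact le_of_mul_le_mul_left h7 (by positivity)
        have h8 := root _ _ (by positivity) (by positivity) h6
        refine h8.trans (le_of_eq ?_)
        rw [Real.mul_rpow (by positivity) (by positivity), ← Real.rpow_natCast,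
          ← Real.rpow_mul hn]
        norm_num
        ring

end Pool.Agent.Results.MP_e17eac_co.FewDeletions
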