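import Mathlib
import Pool.Agent.Q236.HB.Dual
import Pool.Agent.Results.MP_a08d0a_co.IidLevel

/-!
# Random point sets have few halving lines: `O(n ^ (7/6))` for every law

Definitions (in `Pool/Agent/W296/HL3.lean`, namespace `Pool.Agent.W296.HL`):

* `Line a b c = {p | a * p.1 + b * p.2 = c}`,
* `GeneralPosition P`: no three distinct points of `P` on a common line,
* `IsBisector P L`: `L` is a line through two distinct points of `P` with exactly
  `|P| / 2 - 1` points of `P` on each open side.

The lines through two points of the set correspond to the crossings of the dual lines, and the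
bisectors to the crossings at the middle level; the bound for the expected number of crossings at a
given level of i.i.d. lines is the engine of the starting result on levels of line arrangements.
-/

set_option autoImplicit false

namespace Pool.Agent.Results.MP_e17eac_co.RandomPoints

open Finset MeasureTheory Filter
open Pool.Agent.W296.HL (Line GeneralPosition IsBisector)
open Pool.Agent.Q236.HB
open scoped ENNReal Topology

open scoped Classical in
/-- the set of the points `P 1, …, P n` -/
noncomputable def pointSet {n : ℕ} (P : Fin n → ℝ × ℝ) : Finset (ℝ × ℝ) := univ.image P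

open Pool.Agent.Results.MP_a08d0a_co.IidLevel (sl ic simple_of_GP crossings measurable_crossings) in
/-- There is an absolute constant `C` such that for every probability measure `μ` on the plane for
which lines are null sets and all even `n`: `n` independent random points with the law `μ` are
almost surely distinct and in general position, the number of their bisectors is a random variable,
and its expectation is at most `C n ^ (7/6)`; hence it exceeds `t C n ^ (7/6)` with probability at
most `1 / t`. -/
theorem result : ∃ C : ℝ, 0 < C ∧ ∀ (μ : Measure (ℝ × ℝ)) [IsProbabilityMeasure μ],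
    (∀ a b c : ℝ, (a ≠ 0 ∨ b ≠ 0) → μ (Line a b c) = 0) → ∀ n : ℕ, Even n →
    (∀ᵐ P ∂Measure.pi (fun _ : Fin n => μ), Function.Injective P ∧ GeneralPosition (pointSet P)) ∧
    AEMeasurable (fun P : Fin n → ℝ × ℝ => ({L | IsBisector (pointSet P) L}.ncard : ℝ≥0∞))
      (Measure.pi fun _ : Fin n => μ) ∧
    ∫⁻ P, ({L | IsBisector (pointSet P) L}.ncard : ℝ≥0∞) ∂Measure.pi (fun _ : Fin n => μ) ≤
      ENNReal.ofReal (C * (n : ℝ) ^ (7 / 6 : ℝ)) ∧
    ∀ t : ℝ, 0 < t → (Measure.pi fun _ : Fin n => μ)
      {P | t * (C * (n : ℝ) ^ (7 / 6 : ℝ)) < ({L | IsBisector (pointSet P) L}.ncard : ℝ)} ≤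
        ENNReal.ofReal (1 / t) := by
  classical
  obtain ⟨C, hC, h⟩ := Pool.Agent.Results.MP_a08d0a_co.IidLevel.result
  refine ⟨C, hC, ?_⟩
  intro μ _ hμ n hn
  have hμ' : ∀ a b c : ℝ, (a ≠ 0 ∨ b ≠ 0) → μ {y | a * y.1 + b * y.2 = c} = 0 := hμ
  obtain ⟨-, hcross, -⟩ := h μ hμ' n
  have hgp := Pool.Agent.H189R2.Iid.ae_GP (μ := μ) hμ' n
  have hset : ∀ P : Fin n → ℝ × ℝ, pointSet P = pts (sl P) (ic P) := fun P => rfl
  have hinj : ∀ P : Fin n → ℝ × ℝ, Pool.Agent.H189R2.Iid.GP P → Function.Injective (sl P) :=
    fun P hP i j hij => hP.1 i j hij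
  have heq : ∀ᵐ P ∂Measure.pi (fun _ : Fin n => μ),
      ({L | IsBisector (pointSet P) L}.ncard : ℝ≥0∞) =
        ((crossings (sl P) (ic P) (n / 2 - 1)).ncard : ℝ≥0∞) := by
    filter_upwards [hgp] with P hP
    rw [hset, bisectors_eq (hinj P hP) hn (simple_of_GP hP).2]
    rfl
  have hae : AEMeasurable (fun P : Fin n → ℝ × ℝ =>
      ({L | IsBisector (pointSet P) L}.ncard : ℝ≥0∞)) (Measure.pi fun _ : Fin n => μ) :=
    ⟨_, measurable_crossings (n / 2 - 1), heq⟩
  have hint : ∫⁻ P, ({L | IsBisector (pointSet P) L}.ncard : ℝ≥0∞)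
      ∂Measure.pi (fun _ : Fin n => μ) ≤ ENNReal.ofReal (C * (n : ℝ) ^ (7 / 6 : ℝ)) := by
    rw [lintegral_congr_ae heq]
    refine (hcross (n / 2 - 1)).trans (ENNReal.ofReal_le_ofReal ?_)
    rcases Nat.eq_zero_or_pos n with h0 | h0
    · subst h0
      simp only [CharP.cast_eq_zero, mul_zero, zero_mul]
      positivity
    · have hn2 : 2 ≤ n := by
        obtain ⟨m, hm⟩ := hn
        omega
      have hnpos : (0 : ℝ) < n := by exact_mod_cast h0
      have e1 : (n : ℝ) ^ (7 / 6 : ℝ) = n * (n : ℝ) ^ (1 / 6 : ℝ) := by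
        rw [show (7 / 6 : ℝ) = 1 + 1 / 6 by norm_num, Real.rpow_add hnpos, Real.rpow_one]
      rw [e1, ← mul_assoc]
      apply mul_le_mul_of_nonneg_left _ (by positivity)
      apply Real.rpow_le_rpow (by positivity) _ (by norm_num)
      have : min (n / 2 - 1) (n - 2 - (n / 2 - 1)) + 1 ≤ n := by omega
      exact_mod_cast this
  refine ⟨?_, hae, hint, ?_⟩
  · filter_upwards [hgp] with P hP
    refine ⟨fun i j hij => hinj P hP (congrArg Prod.fst hij), ?_⟩
    rw [hset]
    exact gp_pts (hinj P hP) (simple_of_GP hP).2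
  · intro t ht
    set K : ℝ := C * (n : ℝ) ^ (7 / 6 : ℝ) with hK
    have hK0 : 0 ≤ K := by positivity
    rcases eq_or_lt_of_le hK0 with hK1 | hK1
    · -- the expectation is zero
      rw [← hK1, ENNReal.ofReal_zero, nonpos_iff_eq_zero, lintegral_eq_zero_iff' hae] at hint
      have : (Measure.pi fun _ : Fin n => μ)
          {P | t * K < ({L | IsBisector (pointSet P) L}.ncard : ℝ)} = 0 := by
        rw [← hK1, mul_zero, measure_eq_zero_iff_ae_notMem]
        filter_upwards [hint] with P hP
        simp only [Pi.zero_apply, Nat.cast_eq_zero] at hP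
        rw [hP]
        simp
      rw [this]
      exact zero_le
    · have hmk := mul_meas_ge_le_lintegral₀ hae (ENNReal.ofReal (t * K))
      have hsub : {P : Fin n → ℝ × ℝ | t * K < ({L | IsBisector (pointSet P) L}.ncard : ℝ)} ⊆
          {P | ENNReal.ofReal (t * K) ≤ ({L | IsBisector (pointSet P) L}.ncard : ℝ≥0∞)} := by
        intro P hP
        simp only [Set.mem_ofPred_eq] at hP ⊢
        rw [← ENNReal.ofReal_natCast]
        exact ENNReal.ofReal_le_ofReal hP.le
      have h1 := (mul_le_mul_right (measure_mono (μ := Measure.pi fun _ : Fin n => μ) hsub)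
        (ENNReal.ofReal (t * K))).trans (hmk.trans hint)
      rw [ENNReal.ofReal_mul ht.le, mul_comm (ENNReal.ofReal t), mul_assoc] at h1
      have hKne : ENNReal.ofReal K ≠ 0 := by
        rw [Ne, ENNReal.ofReal_eq_zero, not_le]
        exact hK1
      have h2 : ENNReal.ofReal t * (Measure.pi fun _ : Fin n => μ)
          {P | t * K < ({L | IsBisector (pointSet P) L}.ncard : ℝ)} ≤ 1 := by
        have h3 : ENNReal.ofReal K * (ENNReal.ofReal t * (Measure.pi fun _ : Fin n => μ)
          {P | t * K < ({L | IsBisector (pointSet P) L}.ncard : ℝ)}) ≤ ENNReal.ofReal K * 1 := by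
          rw [mul_one]; exact h1
        exact (ENNReal.mul_le_mul_iff_right hKne ENNReal.ofReal_ne_top).mp h3
      have htne : ENNReal.ofReal t ≠ 0 := by
        rw [Ne, ENNReal.ofReal_eq_zero, not_le]
        exact ht
      rw [one_div, ENNReal.ofReal_inv_of_pos ht]
      rw [mul_comm] at h2
      exact ENNReal.le_inv_iff_mul_le.mpr h2

end Pool.Agent.Results.MP_e17eac_co.RandomPoints
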