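import Mathlib
import Pool.Agent.Q236.HB.Dual
import Pool.Agent.Results.MP_a08d0a_co.SmoothedLevel

/-!
# Smoothed number of halving lines: linear

Definitions (in `Pool/Agent/W296/HL3.lean`, namespace `Pool.Agent.W296.HL`):

* `Line a b c = {p | a * p.1 + b * p.2 = c}`,
* `GeneralPosition P`: no three distinct points of `P` on a common line,
* `IsBisector P L`: `L` is a line through two distinct points of `P` with exactly
  `|P| / 2 - 1` points of `P` on each open side.
-/

set_option autoImplicit false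

namespace Pool.Agent.Results.MP_e17eac_co.SmoothedPoints

open Finset MeasureTheory Filter
open Pool.Agent.W296.HL (Line GeneralPosition IsBisector)
open Pool.Agent.Q236.HB
open scoped ENNReal Topology

open scoped Classical in
/-- the set of the points `(x i, y i)` -/
noncomputable def pointSet {n : ℕ} (x y : Fin n → ℝ) : Finset (ℝ × ℝ) :=
  univ.image fun i => (x i, y i)

open Pool.Agent.Results.MP_a08d0a_co.SmoothedLevel (crossings measurable_crossings) in
/-- 1. Let `n` be even, `x 1, …, x n` distinct real numbers, and `y 1, …, y n` independent random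
numbers with `|y i| ≤ M`, whose laws have densities at most `D`. Then the points `(x i, y i)` are
almost surely in general position and the expected number of their bisectors is at most `8 D M n`.
2. In particular let `(x i, z i)` be arbitrary points with distinct abscissae and `|z i| ≤ 1`, and
`0 < σ ≤ 1`. If independent random numbers `ξ i`, uniform in `[-σ, σ]`, are added to the ordinates
`z i`, then the expected number of bisectors of the points `(x i, z i + ξ i)` is at most
`8 n / σ`. -/
theorem result :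
    (∀ (n : ℕ), Even n → ∀ x : Fin n → ℝ, Function.Injective x →
      ∀ (ν : Fin n → Measure ℝ) [∀ i, IsProbabilityMeasure (ν i)] (D M : ℝ),
      (∀ i, ∀ s t : ℝ, s ≤ t → ν i (Set.Icc s t) ≤ ENNReal.ofReal (D * (t - s))) →
      (∀ i, ∀ᵐ b ∂ν i, |b| ≤ M) →
      (∀ᵐ y ∂Measure.pi ν, GeneralPosition (pointSet x y)) ∧
      AEMeasurable (fun y : Fin n → ℝ => ({L | IsBisector (pointSet x y) L}.ncard : ℝ≥0∞))
        (Measure.pi ν) ∧
      ∫⁻ y, ({L | IsBisector (pointSet x y) L}.ncard : ℝ≥0∞) ∂Measure.pi ν ≤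
        ENNReal.ofReal (8 * D * M * n)) ∧
    (∀ (n : ℕ), Even n → ∀ x z : Fin n → ℝ, Function.Injective x → (∀ i, |z i| ≤ 1) →
      ∀ σ : ℝ, 0 < σ → σ ≤ 1 →
      ∫⁻ ξ, ({L | IsBisector (pointSet x fun i => z i + ξ i) L}.ncard : ℝ≥0∞)
        ∂Measure.pi (fun _ : Fin n => ProbabilityTheory.cond volume (Set.Icc (-σ) σ)) ≤
        ENNReal.ofReal (8 / σ * n)) := by
  classical
  have part1 : ∀ (n : ℕ), Even n → ∀ x : Fin n → ℝ, Function.Injective x →
      ∀ (ν : Fin n → Measure ℝ) [∀ i, IsProbabilityMeasure (ν i)] (D M : ℝ),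
      (∀ i, ∀ s t : ℝ, s ≤ t → ν i (Set.Icc s t) ≤ ENNReal.ofReal (D * (t - s))) →
      (∀ i, ∀ᵐ b ∂ν i, |b| ≤ M) →
      (∀ᵐ y ∂Measure.pi ν, GeneralPosition (pointSet x y)) ∧
      AEMeasurable (fun y : Fin n → ℝ => ({L | IsBisector (pointSet x y) L}.ncard : ℝ≥0∞))
        (Measure.pi ν) ∧
      ∫⁻ y, ({L | IsBisector (pointSet x y) L}.ncard : ℝ≥0∞) ∂Measure.pi ν ≤
        ENNReal.ofReal (8 * D * M * n) := by
    intro n hn x hx ν _ D M hν hM
    obtain ⟨hsimple, hcross, -⟩ :=
      Pool.Agent.Results.MP_a08d0a_co.SmoothedLevel.result n x ν D M hν hM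
    have heq : ∀ᵐ y ∂Measure.pi ν,
        ({L | IsBisector (pointSet x y) L}.ncard : ℝ≥0∞) =
          ((crossings x y (n / 2 - 1)).ncard : ℝ≥0∞) := by
      filter_upwards [hsimple] with y hy
      have : pointSet x y = pts x y := rfl
      rw [this, bisectors_eq hx hn hy.2]
      rfl
    refine ⟨?_, ⟨_, measurable_crossings x (n / 2 - 1), heq⟩, ?_⟩
    · filter_upwards [hsimple] with y hy
      exact gp_pts hx hy.2
    · rw [lintegral_congr_ae heq]
      exact hcross (n / 2 - 1)
  refine ⟨part1, ?_⟩
  intro n hn x z hx hz σ hσ hσ1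
  set U : Measure ℝ := ProbabilityTheory.cond volume (Set.Icc (-σ) σ) with hU
  have hvol : (volume : Measure ℝ) (Set.Icc (-σ) σ) = ENNReal.ofReal (2 * σ) := by
    rw [Real.volume_Icc]
    congr 1
    ring
  have hvol0 : (volume : Measure ℝ) (Set.Icc (-σ) σ) ≠ 0 := by
    rw [hvol, Ne, ENNReal.ofReal_eq_zero, not_le]
    linarith
  have hvolt : (volume : Measure ℝ) (Set.Icc (-σ) σ) ≠ ∞ := by
    rw [hvol]; exact ENNReal.ofReal_ne_top
  haveI : IsProbabilityMeasure U := ProbabilityTheory.cond_isProbabilityMeasure_of_finite hvol0 hvolt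
  have hUle : ∀ s : Set ℝ, U s ≤ ENNReal.ofReal (1 / (2 * σ)) * volume s := by
    intro s
    rw [hU, ProbabilityTheory.cond_apply measurableSet_Icc, hvol,
      ← ENNReal.ofReal_inv_of_pos (by linarith), one_div]
    gcongr
    exact Set.inter_subset_right
  set ν : Fin n → Measure ℝ := fun i => U.map (fun b => z i + b) with hν
  haveI : ∀ i, IsProbabilityMeasure (ν i) := fun i =>
    Measure.isProbabilityMeasure_map (measurable_const_add (z i)).aemeasurable
  have h1 := part1 n hn x hx ν (1 / (2 * σ)) 2 ?_ ?_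
  · have hmp : MeasurePreserving (fun (ξ : Fin n → ℝ) i => z i + ξ i)
        (Measure.pi fun _ : Fin n => U) (Measure.pi ν) :=
      measurePreserving_pi _ _ (fun i => ⟨measurable_const_add (z i), rfl⟩)
    have h2 := h1.2.2
    have h3 : ∫⁻ ξ, ({L | IsBisector (pointSet x fun i => z i + ξ i) L}.ncard : ℝ≥0∞)
        ∂Measure.pi (fun _ : Fin n => U) =
        ∫⁻ y, ({L | IsBisector (pointSet x y) L}.ncard : ℝ≥0∞) ∂Measure.pi ν := by
      rw [← hmp.map_eq] 
      rw [lintegral_map' (by rw [hmp.map_eq]; exact h1.2.1) hmp.measurable.aemeasurable]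
    rw [h3]
    refine h2.trans (le_of_eq ?_)
    congr 1
    field_simp
  · intro i s t hst
    rw [hν]
    simp only
    rw [Measure.map_apply (measurable_const_add (z i)) measurableSet_Icc]
    have : (fun b => z i + b) ⁻¹' Set.Icc s t = Set.Icc (s - z i) (t - z i) := by
      ext b
      simp only [Set.mem_preimage, Set.mem_Icc]
      constructor <;> rintro ⟨h1, h2⟩ <;> constructor <;> linarith
    rw [this]
    refine (hUle _).trans (le_of_eq ?_)
    rw [Real.volume_Icc, ← ENNReal.ofReal_mul (by positivity)]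
    congr 1
    ring
  · intro i
    rw [hν]
    simp only
    rw [ae_map_iff (measurable_const_add (z i)).aemeasurable
      (measurableSet_le (f := fun b : ℝ => |b|) (continuous_abs.measurable) measurable_const)]
    have hmem : ∀ᵐ b ∂U, b ∈ Set.Icc (-σ) σ := by
      rw [hU]
      exact ProbabilityTheory.ae_cond_mem measurableSet_Icc
    filter_upwards [hmem] with b hb
    have h4 := hz i
    have h5 : |b| ≤ 1 := abs_le.mpr ⟨by linarith [hb.1], by linarith [hb.2]⟩
    calc |z i + b| ≤ |z i| + |b| := abs_add_le _ _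
      _ ≤ 2 := by linarith

end Pool.Agent.Results.MP_e17eac_co.SmoothedPoints
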